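import Mathlib

/-!
Uniform `k`-component forests: the edge marginals are not monotone in `k`.

The counterexample is the graph on seven vertices obtained by joining the two endpoints of an
edge `e = {0, 1}` to each of five further vertices `2, ..., 6` (five triangles glued along `e`).
There `UF_1[e] = 2/7 < 5/17 = UF_2[e]`.

The counts are obtained from a small verified union-find recursion.
-/

namespace Pool.Agent.Results.MP_bb4aa0_pr.NotMonotone

open SimpleGraph

/-- The set of (edge sets of) spanning forests of `G` with exactly `k` connected components: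
the sets `F` of edges of `G` for which the graph `(V, F)` has no cycle and has exactly `k`
connected components. -/
def kForests {V : Type*} (G : SimpleGraph V) (k : ℕ) : Set (Set (Sym2 V)) :=
  {F | F ⊆ G.edgeSet ∧ (fromEdgeSet F).IsAcyclic ∧
    Nat.card (fromEdgeSet F).ConnectedComponent = k}

/-- The probability that the edge `e` belongs to a uniformly random spanning forest of `G` with
exactly `k` connected components. -/
noncomputable def UF {V : Type*} (G : SimpleGraph V) (k : ℕ) (e : Sym2 V) : ℝ :=
  ((kForests G k ∩ {F | e ∈ F}).ncard : ℝ) / ((kForests G k).ncard : ℝ)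

/-! ### The union-find step -/

/-- Merge the label of `a` into the label of `b`. -/
def step (l : List ℕ) (a b : ℕ) : List ℕ :=
  l.map (fun x => if x = l.getD a 0 then l.getD b 0 else x)

/-- Number of ways to choose a sublist of the list of edges such that, starting from the labels
`l`, no chosen edge joins two vertices with equal labels and the final number of labels is `k`. -/
def cnt : List (ℕ × ℕ) → List ℕ → ℕ → ℕ
  | [], l, k => if l.dedup.length = k then 1 else 0
  | (a, b) :: L, l, k =>
      cnt L l k + if l.getD a 0 = l.getD b 0 then 0 else cnt L (step l a b) k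

variable {n : ℕ}

/-- `l` is a list of labels of the connected components of `H`. -/
def IsLab (H : SimpleGraph (Fin n)) (l : List ℕ) : Prop :=
  l.length = n ∧ ∀ x y : Fin n, H.Reachable x y ↔ l.getD x 0 = l.getD y 0

lemma step_getD (l : List ℕ) (hl : l.length = n) (a b : ℕ) (x : Fin n) :
    (step l a b).getD x 0 = if l.getD x 0 = l.getD a 0 then l.getD b 0 else l.getD x 0 := by
  unfold step
  have hx : (x : ℕ) < l.length := by rw [hl]; exact x.2
  simp [List.getD_eq_getElem?_getD, hx]

lemma isLab_bot : IsLab (⊥ : SimpleGraph (Fin n)) (List.range n) := by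
  refine ⟨List.length_range, fun x y => ?_⟩
  rw [reachable_bot]
  simp [List.getD_eq_getElem?_getD, Fin.ext_iff]

lemma isLab_step {H : SimpleGraph (Fin n)} {l : List ℕ} (h : IsLab H l) (a b : Fin n) :
    IsLab (H ⊔ edge a b) (step l a b) := by
  obtain ⟨hlen, hreach⟩ := h
  refine ⟨by simp [step, hlen], fun x y => ?_⟩
  rw [step_getD l hlen, step_getD l hlen]
  have hab : (H ⊔ edge a b).Reachable a b := by
    by_cases hne : a = b
    · subst hne; exact Reachable.refl _
    · refine Adj.reachable ?_
      simp [edge_adj, hne]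
  have hmono : ∀ {x y : Fin n}, H.Reachable x y → (H ⊔ edge a b).Reachable x y :=
    fun h => h.mono le_sup_left
  constructor
  · rintro ⟨w⟩
    induction w with
    | nil => rfl
    | @cons u v w huv p ih =>
      rw [← ih]
      rw [sup_adj, edge_adj] at huv
      rcases huv with huv | ⟨⟨rfl, rfl⟩ | ⟨rfl, rfl⟩, -⟩
      · have := (hreach u v).1 huv.reachable
        rw [this]
      · by_cases h1 : l.getD (v : ℕ) 0 = l.getD (u : ℕ) 0 <;> simp
      · by_cases h1 : l.getD (u : ℕ) 0 = l.getD (v : ℕ) 0 <;> simp
  · intro hxy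
    by_cases hx : l.getD (x : ℕ) 0 = l.getD (a : ℕ) 0
    · by_cases hy : l.getD (y : ℕ) 0 = l.getD (a : ℕ) 0
      · exact hmono ((hreach x y).2 (hx.trans hy.symm))
      · rw [if_pos hx, if_neg hy] at hxy
        exact ((hmono ((hreach x a).2 hx)).trans hab).trans (hmono ((hreach b y).2 hxy))
    · by_cases hy : l.getD (y : ℕ) 0 = l.getD (a : ℕ) 0
      · rw [if_neg hx, if_pos hy] at hxy
        exact (hmono ((hreach x b).2 hxy)).trans (hab.symm.trans (hmono ((hreach a y).2 hy.symm)))
      · rw [if_neg hx, if_neg hy] at hxy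
        exact hmono ((hreach x y).2 hxy)

lemma card_of_isLab {H : SimpleGraph (Fin n)} {l : List ℕ} (h : IsLab H l) :
    Nat.card H.ConnectedComponent = l.dedup.length := by
  classical
  obtain ⟨hlen, hreach⟩ := h
  have e : H.ConnectedComponent ≃ {x // x ∈ l.toFinset} := by
    refine Equiv.ofBijective (fun c => ⟨c.lift (fun v : Fin n => l.getD (v : ℕ) 0)
      (fun v w p _ => (hreach v w).1 p.reachable), ?_⟩) ⟨?_, ?_⟩
    · induction c using ConnectedComponent.ind with
      | h v =>
        have hv : (v : ℕ) < l.length := by rw [hlen]; exact v.2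
        simp [List.getD_eq_getElem?_getD, hv]
    · intro c d hcd
      induction c using ConnectedComponent.ind with
      | h v =>
        induction d using ConnectedComponent.ind with
        | h w =>
          simp only [Subtype.mk.injEq, ConnectedComponent.lift_mk] at hcd
          exact ConnectedComponent.sound ((hreach v w).2 hcd)
    · rintro ⟨x, hx⟩
      rw [List.mem_toFinset] at hx
      obtain ⟨i, hi, rfl⟩ := List.getElem_of_mem hx
      refine ⟨H.connectedComponentMk ⟨i, by rw [← hlen]; exact hi⟩, ?_⟩
      simp [List.getD_eq_getElem?_getD, hi]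
  rw [Nat.card_congr e, Nat.card_eq_fintype_card, Fintype.card_coe, List.card_toFinset]

/-- The finite set of edge sets counted by the recursion. -/
noncomputable def fam (H : SimpleGraph (Fin n)) (S : Finset (Sym2 (Fin n))) (k : ℕ) :
    Finset (Finset (Sym2 (Fin n))) := by
  classical
  exact S.powerset.filter (fun F => (H ⊔ fromEdgeSet (F : Set (Sym2 (Fin n)))).IsAcyclic ∧
    Nat.card (H ⊔ fromEdgeSet (F : Set (Sym2 (Fin n)))).ConnectedComponent = k)

/-- The edge set described by a list of pairs of numbers. -/
def edgesOf (L : List (Fin n × Fin n)) : Finset (Sym2 (Fin n)) :=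
  (L.map (fun p => s(p.1, p.2))).toFinset

lemma sup_insert (H : SimpleGraph (Fin n)) (a b : Fin n) (F : Finset (Sym2 (Fin n))) :
    H ⊔ fromEdgeSet ((insert s(a, b) F : Finset (Sym2 (Fin n))) : Set (Sym2 (Fin n))) =
      (H ⊔ edge a b) ⊔ fromEdgeSet (F : Set (Sym2 (Fin n))) := by
  rw [Finset.coe_insert, Set.insert_eq, fromEdgeSet_union, edge, sup_assoc]

lemma card_fam (L : List (Fin n × Fin n)) :
    ∀ (H : SimpleGraph (Fin n)) (l : List ℕ) (k : ℕ), IsLab H l → H.IsAcyclic →
      (L.map (fun p => s(p.1, p.2))).Nodup →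
      (∀ p ∈ L, p.1 ≠ p.2 ∧ ¬ H.Adj p.1 p.2) →
      (fam H (edgesOf L) k).card = cnt (L.map (fun p => ((p.1 : ℕ), (p.2 : ℕ)))) l k := by
  classical
  induction L with
  | nil =>
    intro H l k hl hac _ _
    simp only [fam, edgesOf, List.map_nil, List.toFinset_nil, Finset.powerset_empty, cnt]
    rw [← card_of_isLab hl]
    by_cases hk : Nat.card H.ConnectedComponent = k
    · rw [if_pos hk, Finset.filter_singleton, if_pos]
      · simp
      · rw [Finset.coe_empty, fromEdgeSet_empty, sup_bot_eq]
        exact ⟨hac, hk⟩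
    · rw [if_neg hk, Finset.filter_singleton, if_neg]
      · simp
      · rw [Finset.coe_empty, fromEdgeSet_empty, sup_bot_eq]
        exact fun h => hk h.2
  | cons p L ih =>
    intro H l k hl hac hnd hadj
    obtain ⟨a, b⟩ := p
    simp only [List.map_cons, List.nodup_cons] at hnd
    have hab : a ≠ b := (hadj (a, b) (by simp)).1
    have hnadj : ¬ H.Adj a b := (hadj (a, b) (by simp)).2
    have hadj' : ∀ p ∈ L, p.1 ≠ p.2 ∧ ¬ H.Adj p.1 p.2 := fun p hp => hadj p (by simp [hp])
    have hnotin : s(a, b) ∉ edgesOf L := by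
      simpa [edgesOf] using hnd.1
    have hE : edgesOf ((a, b) :: L) = insert s(a, b) (edgesOf L) := by
      simp [edgesOf]
    have hsplit : fam H (edgesOf ((a, b) :: L)) k =
        fam H (edgesOf L) k ∪
          (fam (H ⊔ edge a b) (edgesOf L) k).image (insert s(a, b)) := by
      ext F
      simp only [fam, hE, Finset.mem_filter, Finset.mem_union, Finset.mem_image,
        Finset.mem_powerset]
      constructor
      · rintro ⟨hF, h1, h2⟩
        by_cases hin : s(a, b) ∈ F
        · right
          refine ⟨F.erase s(a, b), ⟨?_, ?_, ?_⟩, Finset.insert_erase hin⟩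
          · intro x hx
            have := hF (Finset.mem_of_mem_erase hx)
            rw [Finset.mem_insert] at this
            rcases this with rfl | h
            · simp at hx
            · exact h
          · rw [← sup_insert, Finset.insert_erase hin]; exact h1
          · rw [← sup_insert, Finset.insert_erase hin]; exact h2
        · left
          refine ⟨?_, h1, h2⟩
          intro x hx
          have := hF hx
          rw [Finset.mem_insert] at this
          rcases this with rfl | h
          · exact absurd hx hin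
          · exact h
      · rintro (⟨hF, h1, h2⟩ | ⟨F', ⟨hF', h1, h2⟩, rfl⟩)
        · exact ⟨hF.trans (Finset.subset_insert _ _), h1, h2⟩
        · refine ⟨Finset.insert_subset_insert _ hF', ?_, ?_⟩
          · rw [sup_insert]; exact h1
          · rw [sup_insert]; exact h2
    have hdisj : Disjoint (fam H (edgesOf L) k)
        ((fam (H ⊔ edge a b) (edgesOf L) k).image (insert s(a, b))) := by
      rw [Finset.disjoint_left]
      intro F hF hF'
      simp only [fam, Finset.mem_filter, Finset.mem_powerset, Finset.mem_image] at hF hF'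
      obtain ⟨F', -, rfl⟩ := hF'
      exact hnotin (hF.1 (Finset.mem_insert_self _ _))
    have hinj : Set.InjOn (insert s(a, b))
        (fam (H ⊔ edge a b) (edgesOf L) k : Set (Finset (Sym2 (Fin n)))) := by
      intro F hF F' hF' hFF
      simp only [fam, Finset.coe_filter, Finset.mem_powerset, Set.mem_ofPred_eq] at hF hF'
      have h1 : s(a, b) ∉ F := fun h => hnotin (hF.1 h)
      have h2 : s(a, b) ∉ F' := fun h => hnotin (hF'.1 h)
      rw [← Finset.erase_insert h1, ← Finset.erase_insert h2, hFF]
    rw [hsplit, Finset.card_union_of_disjoint hdisj, Finset.card_image_of_injOn hinj]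
    simp only [List.map_cons, cnt]
    rw [ih H l k hl hac hnd.2 hadj']
    congr 1
    by_cases hlab : l.getD (a : ℕ) 0 = l.getD (b : ℕ) 0
    · rw [if_pos hlab]
      have hr : H.Reachable a b := (hl.2 a b).2 hlab
      rw [Finset.card_eq_zero]
      ext F
      simp only [fam, Finset.mem_filter, Finset.notMem_empty, iff_false, not_and]
      intro _ hac' _
      have h3 : (H ⊔ edge a b).IsAcyclic := hac'.anti le_sup_left
      rw [isAcyclic_sup_fromEdgeSet_iff] at h3
      rcases h3.2 hr with h4 | h4
      · exact hab h4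
      · exact hnadj h4
    · rw [if_neg hlab]
      have hr : ¬ H.Reachable a b := fun h => hlab ((hl.2 a b).1 h)
      refine ih (H ⊔ edge a b) (step l a b) k (isLab_step hl a b)
        (hac.sup_edge_of_not_reachable hr) hnd.2 ?_
      intro p hp
      refine ⟨(hadj' p hp).1, ?_⟩
      rw [sup_adj, edge_adj]
      rintro (h | h)
      · exact (hadj' p hp).2 h
      · apply hnd.1
        rw [List.mem_map]
        refine ⟨p, hp, ?_⟩
        rcases h.1 with ⟨h1, h2⟩ | ⟨h1, h2⟩
        · rw [← h1, ← h2]
        · rw [← h1, ← h2, Sym2.eq_swap]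

/-! ### The graph -/

/-- The edges of the counterexample other than the spine `{0, 1}`. -/
def rest : List (Fin 7 × Fin 7) :=
  [(0, 2), (1, 2), (0, 3), (1, 3), (0, 4), (1, 4), (0, 5), (1, 5), (0, 6), (1, 6)]

/-- The counterexample: an edge `{0, 1}` both of whose endpoints are joined to each of the five
further vertices `2, 3, 4, 5, 6`. -/
def book : SimpleGraph (Fin 7) :=
  fromEdgeSet (edgesOf ((0, 1) :: rest) : Set (Sym2 (Fin 7)))

lemma edgeSet_book : book.edgeSet = (edgesOf ((0, 1) :: rest) : Set (Sym2 (Fin 7))) := by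
  rw [book, edgeSet_fromEdgeSet, sdiff_eq_left, Set.disjoint_left]
  intro x hx hd
  revert x
  simp only [edgesOf, rest]
  decide

lemma kForests_book (k : ℕ) : kForests book k =
    (fun F : Finset (Sym2 (Fin 7)) => (F : Set (Sym2 (Fin 7)))) ''
      (fam ⊥ (edgesOf ((0, 1) :: rest)) k : Set (Finset (Sym2 (Fin 7)))) := by
  classical
  ext F
  simp only [kForests, edgeSet_book, fam, bot_sup_eq, Finset.coe_filter, Finset.mem_powerset,
    Set.mem_image, Set.mem_ofPred_eq]
  constructor
  · rintro ⟨h1, h2, h3⟩
    refine ⟨F.toFinite.toFinset, ⟨?_, ?_, ?_⟩, Set.Finite.coe_toFinset _⟩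
    · intro x hx
      exact h1 ((Set.Finite.mem_toFinset _).1 hx)
    · rw [Set.Finite.coe_toFinset]; exact h2
    · rw [Set.Finite.coe_toFinset]; exact h3
  · rintro ⟨F', ⟨h1, h2, h3⟩, rfl⟩
    exact ⟨by exact_mod_cast h1, h2, h3⟩

lemma kForests_book_mem (k : ℕ) : kForests book k ∩ {F | s(0, 1) ∈ F} =
    (fun F : Finset (Sym2 (Fin 7)) => ((insert s(0, 1) F : Finset _) : Set (Sym2 (Fin 7)))) ''
      (fam (⊥ ⊔ edge 0 1) (edgesOf rest) k : Set (Finset (Sym2 (Fin 7)))) := by
  classical
  rw [kForests_book]
  ext F
  simp only [fam, Finset.coe_filter, Finset.mem_powerset,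
    Set.mem_image, Set.mem_ofPred_eq, Set.mem_inter_iff]
  have hE : edgesOf ((0, 1) :: rest) = insert s(0, 1) (edgesOf rest) := by
    simp [edgesOf]
  have hnotin : s(0, 1) ∉ edgesOf rest := by decide
  constructor
  · rintro ⟨⟨F', ⟨h1, h2, h3⟩, rfl⟩, h4⟩
    have h4' : s(0, 1) ∈ F' := by exact_mod_cast h4
    refine ⟨F'.erase s(0, 1), ⟨?_, ?_, ?_⟩, ?_⟩
    · intro x hx
      have hx' := h1 (Finset.mem_of_mem_erase hx)
      rw [hE, Finset.mem_insert] at hx'
      rcases hx' with rfl | h
      · simp at hx
      · exact h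
    · rw [← sup_insert, Finset.insert_erase h4']; exact h2
    · rw [← sup_insert, Finset.insert_erase h4']; exact h3
    · rw [Finset.insert_erase h4']
  · rintro ⟨F', ⟨h1, h2, h3⟩, rfl⟩
    refine ⟨⟨insert s(0, 1) F', ⟨?_, ?_, ?_⟩, rfl⟩, ?_⟩
    · rw [hE]; exact Finset.insert_subset_insert _ h1
    · rw [sup_insert]; exact h2
    · rw [sup_insert]; exact h3
    · simp

lemma ncard_kForests_book (k : ℕ) : (kForests book k).ncard =
    cnt (((0, 1) :: rest : List (Fin 7 × Fin 7)).map (fun p => ((p.1 : ℕ), (p.2 : ℕ))))
      (List.range 7) k := by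
  rw [kForests_book, Set.ncard_image_of_injective _ Finset.coe_injective, Set.ncard_coe_finset]
  refine card_fam _ _ _ _ isLab_bot isAcyclic_bot (by decide) ?_
  intro p hp
  refine ⟨?_, by simp⟩
  revert p
  decide

lemma ncard_kForests_book_mem (k : ℕ) : (kForests book k ∩ {F | s(0, 1) ∈ F}).ncard =
    cnt ((rest : List (Fin 7 × Fin 7)).map (fun p => ((p.1 : ℕ), (p.2 : ℕ))))
      (step (List.range 7) 0 1) k := by
  classical
  rw [kForests_book_mem, Set.InjOn.ncard_image, Set.ncard_coe_finset]
  · refine card_fam _ _ _ _ (isLab_step isLab_bot 0 1) ?_ (by decide) ?_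
    · refine isAcyclic_bot.sup_edge_of_not_reachable ?_
      rw [reachable_bot]
      decide
    · intro p hp
      refine ⟨?_, ?_⟩
      · revert p
        decide
      · rw [bot_sup_eq, edge_adj]
        revert p
        decide
  · intro F hF F' hF' hFF
    simp only [fam, Finset.coe_filter, Finset.mem_powerset, Set.mem_ofPred_eq] at hF hF'
    have hnotin : s(0, 1) ∉ edgesOf rest := by decide
    have h1 : s(0, 1) ∉ F := fun h => hnotin (hF.1 h)
    have h2 : s(0, 1) ∉ F' := fun h => hnotin (hF'.1 h)
    have h3 : insert s(0, 1) F = insert s(0, 1) F' := Finset.coe_injective hFF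
    rw [← Finset.erase_insert h1, ← Finset.erase_insert h2, h3]

lemma book_connected : book.Connected := by
  have h : ∀ v : Fin 7, book.Reachable 0 v := by
    have h1 : ∀ v : Fin 7, v ≠ 0 → book.Adj 0 v := by
      intro v hv
      rw [book, fromEdgeSet_adj]
      refine ⟨?_, hv.symm⟩
      revert v
      simp only [edgesOf, rest]
      decide
    intro v
    by_cases hv : v = 0
    · subst hv; exact Reachable.refl _
    · exact (h1 v hv).reachable
  exact (connected_iff_exists_forall_reachable _).2 ⟨0, h⟩

/-- There is a finite connected simple graph (on seven vertices) with an edge `e` such that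
`UF_1[e] = 2/7` and `UF_2[e] = 5/17`; in particular `UF_1[e] < UF_2[e]`, and the map
`k ↦ UF_k[e]` is not non-increasing. -/
theorem result : ∃ (G : SimpleGraph (Fin 7)) (e : Sym2 (Fin 7)),
    G.Connected ∧ e ∈ G.edgeSet ∧ UF G 1 e = 2 / 7 ∧ UF G 2 e = 5 / 17 ∧
      UF G 1 e < UF G 2 e := by
  have h1 : UF book 1 s(0, 1) = 2 / 7 := by
    have e1 : cnt ((rest : List (Fin 7 × Fin 7)).map (fun p => ((p.1 : ℕ), (p.2 : ℕ))))
      (step (List.range 7) 0 1) 1 = 32 := by decide +kernel
    have e2 : cnt (((0, 1) :: rest : List (Fin 7 × Fin 7)).map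
      (fun p => ((p.1 : ℕ), (p.2 : ℕ)))) (List.range 7) 1 = 112 := by decide +kernel
    rw [UF, ncard_kForests_book_mem, ncard_kForests_book, e1, e2]
    norm_num
  have h2 : UF book 2 s(0, 1) = 5 / 17 := by
    have e1 : cnt ((rest : List (Fin 7 × Fin 7)).map (fun p => ((p.1 : ℕ), (p.2 : ℕ))))
      (step (List.range 7) 0 1) 2 = 80 := by decide +kernel
    have e2 : cnt (((0, 1) :: rest : List (Fin 7 × Fin 7)).map
      (fun p => ((p.1 : ℕ), (p.2 : ℕ)))) (List.range 7) 2 = 272 := by decide +kernel
    rw [UF, ncard_kForests_book_mem, ncard_kForests_book, e1, e2]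
    norm_num
  refine ⟨book, s(0, 1), book_connected, ?_, h1, h2, ?_⟩
  · rw [edgeSet_book]
    simp [edgesOf]
  · rw [h1, h2]; norm_num

end Pool.Agent.Results.MP_bb4aa0_pr.NotMonotone
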